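import Pool.Agent.V5helper49.LR.Stm3

set_option autoImplicit false

/-!
# Project LR, job BON: Bonferroni's inequality
-/

namespace Pool.Agent.V5helper65.LR
open Finset Pool.Agent.V5helper49.LR

/-- elementary symmetric polynomials -/
noncomputable def es (g : ℕ → ℝ) (j : ℕ) (P : Finset ℕ) : ℝ := ∑ K ∈ P.powersetCard j, ∏ p ∈ K, g p

theorem es_zero (g : ℕ → ℝ) (P : Finset ℕ) : es g 0 P = 1 := by
  unfold es
  rw [Finset.powersetCard_zero, Finset.sum_singleton, Finset.prod_empty]

theorem es_empty (g : ℕ → ℝ) (j : ℕ) : es g (j + 1) ∅ = 0 := by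
  unfold es
  rw [Finset.powersetCard_eq_empty.2 (by simp), Finset.sum_empty]

theorem es_insert (g : ℕ → ℝ) (j : ℕ) (P : Finset ℕ) (p : ℕ) (hp : p ∉ P) :
    es g (j + 1) (insert p P) = es g (j + 1) P + g p * es g j P := by
  unfold es
  rw [Finset.powersetCard_succ_insert hp, Finset.sum_union, Finset.sum_image, Finset.mul_sum]
  · congr 1
    apply Finset.sum_congr rfl
    intro K hK
    have hpK : p ∉ K := fun h => hp ((Finset.mem_powersetCard.1 hK).1 h)
    rw [Finset.prod_insert hpK]
  · intro K hK K' hK' h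
    have hK1 : K ∈ P.powersetCard j := hK
    have hK2 : K' ∈ P.powersetCard j := hK'
    have hpK : p ∉ K := fun h => hp ((Finset.mem_powersetCard.1 hK1).1 h)
    have hpK' : p ∉ K' := fun h => hp ((Finset.mem_powersetCard.1 hK2).1 h)
    have h' : insert p K = insert p K' := h
    rw [← Finset.erase_insert hpK, h', Finset.erase_insert hpK']
  · rw [Finset.disjoint_left]
    intro K hK hK'
    obtain ⟨K', _, rfl⟩ := Finset.mem_image.1 hK'
    exact hp ((Finset.mem_powersetCard.1 hK).1 (Finset.mem_insert_self _ _))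

theorem es_nonneg (g : ℕ → ℝ) (j : ℕ) (P : Finset ℕ) (hg : ∀ p ∈ P, 0 ≤ g p) : 0 ≤ es g j P := by
  unfold es
  apply Finset.sum_nonneg
  intro K hK
  apply Finset.prod_nonneg
  intro p hp
  exact hg p ((Finset.mem_powersetCard.1 hK).1 hp)

/-- the alternating sum -/
noncomputable def as (g : ℕ → ℝ) (r : ℕ) (P : Finset ℕ) : ℝ := ∑ j ∈ range (r + 1), (-1 : ℝ) ^ j * es g j P

theorem as_succ (g : ℕ → ℝ) (r : ℕ) (P : Finset ℕ) :
    as g (r + 1) P = as g r P + (-1 : ℝ) ^ (r + 1) * es g (r + 1) P := by
  unfold as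
  rw [Finset.sum_range_succ _ (r + 1)]

theorem as_insert (g : ℕ → ℝ) (P : Finset ℕ) (p : ℕ) (hp : p ∉ P) (r : ℕ) :
    as g (r + 1) (insert p P) = as g (r + 1) P - g p * as g r P := by
  induction r with
  | zero =>
    unfold as
    simp only [Finset.sum_range_succ, Finset.sum_range_zero, zero_add, es_zero, es_insert g 0 P p hp]
    ring
  | succ r ih =>
    rw [as_succ g (r + 1) (insert p P), ih, es_insert g (r + 1) P p hp, as_succ g (r + 1) P, as_succ g r P]
    ring

theorem bonf (g : ℕ → ℝ) (P : Finset ℕ) (hg : ∀ p ∈ P, 0 ≤ g p ∧ g p ≤ 1) :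
    ∀ r : ℕ, as g (2 * r + 1) P ≤ ∏ p ∈ P, (1 - g p) ∧ ∏ p ∈ P, (1 - g p) ≤ as g (2 * r) P := by
  induction P using Finset.induction_on with
  | empty =>
    have h0 : ∀ r, as g r ∅ = 1 := by
      intro r
      induction r with
      | zero => unfold as; rw [Finset.sum_range_one, es_zero]; norm_num
      | succ r ih => rw [as_succ, ih, es_empty]; ring
    intro r
    rw [h0, h0, Finset.prod_empty]
    exact ⟨le_refl _, le_refl _⟩
  | insert p P hp ih =>
    have hgP : ∀ q ∈ P, 0 ≤ g q ∧ g q ≤ 1 := fun q hq => hg q (Finset.mem_insert_of_mem hq)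
    have hgp := hg p (Finset.mem_insert_self _ _)
    have ih' := ih hgP
    intro r
    rw [Finset.prod_insert hp]
    constructor
    · rw [as_insert g P p hp]
      have h1 := (ih' r).1
      have h2 := (ih' r).2
      nlinarith [hgp.1]
    · cases r with
      | zero =>
        have e1 : as g (2 * 0) (insert p P) = 1 := by
          unfold as
          rw [Finset.sum_range_one, es_zero]
          norm_num
        rw [e1]
        have h3 : ∏ q ∈ P, (1 - g q) ≤ 1 := by
          have := (ih' 0).2
          have e2 : as g (2 * 0) P = 1 := by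
            unfold as
            rw [Finset.sum_range_one, es_zero]
            norm_num
          rw [e2] at this
          exact this
        have h4 : 0 ≤ ∏ q ∈ P, (1 - g q) := Finset.prod_nonneg fun q hq => by linarith [(hgP q hq).2]
        nlinarith [hgp.1, hgp.2]
      | succ r =>
        rw [show 2 * (r + 1) = (2 * r + 1) + 1 by ring, as_insert g P p hp]
        have h1 := (ih' r).1
        have h2 := (ih' (r + 1)).2
        rw [show 2 * (r + 1) = (2 * r + 1) + 1 by ring] at h2
        nlinarith [hgp.1]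

theorem pow_aux (s g : ℝ) (hs : 0 ≤ s) (hg : 0 ≤ g) (k : ℕ) :
    s ^ (k + 1) + (k + 1) * g * s ^ k ≤ (s + g) ^ (k + 1) := by
  induction k with
  | zero => simp
  | succ k ih =>
    have h1 : (s + g) * (s ^ (k + 1) + (k + 1) * g * s ^ k) ≤ (s + g) * (s + g) ^ (k + 1) :=
      mul_le_mul_of_nonneg_left ih (by positivity)
    have h2 : 0 ≤ ((k : ℝ) + 1) * g ^ 2 * s ^ k := by positivity
    calc s ^ (k + 1 + 1) + ((k + 1 : ℕ) + 1) * g * s ^ (k + 1)
        ≤ (s + g) * (s ^ (k + 1) + (k + 1) * g * s ^ k) := by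
          push_cast
          have e : (s + g) * (s ^ (k + 1) + (k + 1) * g * s ^ k) =
            s ^ (k + 1 + 1) + ((k : ℝ) + 1 + 1) * g * s ^ (k + 1) + ((k : ℝ) + 1) * g ^ 2 * s ^ k := by ring
          rw [e]
          linarith
      _ ≤ (s + g) * (s + g) ^ (k + 1) := h1
      _ = _ := by ring

theorem es_le (g : ℕ → ℝ) (P : Finset ℕ) (hg : ∀ p ∈ P, 0 ≤ g p) :
    ∀ k : ℕ, es g k P ≤ (∑ p ∈ P, g p) ^ k / k.factorial := by
  induction P using Finset.induction_on with
  | empty =>
    intro k
    cases k with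
    | zero => rw [es_zero]; simp
    | succ k => rw [es_empty, Finset.sum_empty]; simp
  | insert p P hp ih =>
    have hgP : ∀ q ∈ P, 0 ≤ g q := fun q hq => hg q (Finset.mem_insert_of_mem hq)
    have hgp := hg p (Finset.mem_insert_self _ _)
    have ih' := ih hgP
    have hs : 0 ≤ ∑ q ∈ P, g q := Finset.sum_nonneg hgP
    intro k
    cases k with
    | zero => rw [es_zero]; simp
    | succ k =>
      rw [es_insert g k P p hp, Finset.sum_insert hp]
      have h1 := ih' (k + 1)
      have h2 := mul_le_mul_of_nonneg_left (ih' k) hgp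
      have h3 := pow_aux (∑ q ∈ P, g q) (g p) hs hgp k
      have hf : (0 : ℝ) < (k + 1).factorial := by exact_mod_cast Nat.factorial_pos _
      have hfk : (0 : ℝ) < k.factorial := by exact_mod_cast Nat.factorial_pos _
      have e1 : g p * ((∑ q ∈ P, g q) ^ k / k.factorial) =
          ((k : ℝ) + 1) * g p * (∑ q ∈ P, g q) ^ k / (k + 1).factorial := by
        rw [Nat.factorial_succ]
        push_cast
        field_simp
      rw [e1] at h2
      calc es g (k + 1) P + g p * es g k P ≤ (∑ q ∈ P, g q) ^ (k + 1) / (k + 1).factorial +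
            ((k : ℝ) + 1) * g p * (∑ q ∈ P, g q) ^ k / (k + 1).factorial := add_le_add h1 h2
        _ = ((∑ q ∈ P, g q) ^ (k + 1) + ((k : ℝ) + 1) * g p * (∑ q ∈ P, g q) ^ k) / (k + 1).factorial := by
            rw [add_div]
        _ ≤ (∑ q ∈ P, g q + g p) ^ (k + 1) / (k + 1).factorial := div_le_div_of_nonneg_right h3 hf.le
        _ = _ := by rw [add_comm (g p)]

theorem t_BON : S_BON := by
  intro P r hr
  obtain ⟨m, hm⟩ := hr
  constructor
  · intro E _
    have h := (bonf (fun p => if E p then 1 else 0) P (fun p _ => by split_ifs <;> norm_num) m).1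
    rw [← hm] at h
    have e1 : ∏ p ∈ P, (1 - (if E p then (1 : ℝ) else 0)) = if ∀ p ∈ P, ¬ E p then 1 else 0 := by
      by_cases hall : ∀ p ∈ P, ¬ E p
      · rw [if_pos hall]
        apply Finset.prod_eq_one
        intro p hp
        rw [if_neg (hall p hp), sub_zero]
      · rw [if_neg hall]
        push Not at hall
        obtain ⟨p, hp, hE⟩ := hall
        apply Finset.prod_eq_zero hp
        rw [if_pos hE, sub_self]
    rw [e1] at h
    refine le_trans (le_of_eq ?_) h
    unfold as es
    apply Finset.sum_congr rfl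
    intro j _
    congr 1
    apply Finset.sum_congr rfl
    intro K _
    by_cases hall : ∀ p ∈ K, E p
    · rw [if_pos hall]
      symm
      apply Finset.prod_eq_one
      intro p hp
      rw [if_pos (hall p hp)]
    · rw [if_neg hall]
      push Not at hall
      obtain ⟨p, hp, hE⟩ := hall
      symm
      apply Finset.prod_eq_zero hp
      rw [if_neg hE]
  · intro g hg
    have h := (bonf g P hg (m + 1)).2
    have e1 : 2 * (m + 1) = r + 1 := by omega
    rw [e1, as_succ] at h
    have e2 : (-1 : ℝ) ^ (r + 1) = 1 := by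
      rw [← e1, pow_mul]
      norm_num
    rw [e2, one_mul] at h
    have h2 := es_le g P (fun p hp => (hg p hp).1) (r + 1)
    show _ ≤ as g r P
    linarith

end Pool.Agent.V5helper65.LR
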