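import Pool.Agent.V5helper49.LR.Stm

set_option autoImplicit false

/-!
# Project LR, job INS1: removing one more place costs little, one interval
-/

namespace Pool.Agent.V5helper65.LR
open Finset Pool.Agent.V5helper49.LR

theorem A1_nonneg (T V B : Finset ℕ) (l : List ℕ) : ∀ K, 0 ≤ A1 T V B l K := by
  induction l with
  | nil => intro K; unfold A1; split_ifs <;> norm_num
  | cons p l ih =>
    intro K
    unfold A1
    apply mul_nonneg (by positivity)
    apply Finset.sum_nonneg
    intro x _
    split_ifs
    · exact ih _
    · exact le_refl _

/-- the mass of the list -/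
noncomputable def sg (B : Finset ℕ) (l : List ℕ) : ℝ :=
  (l.map (fun p : ℕ => open Classical in if p ∈ B then 1 / (p : ℝ) else 0)).sum

theorem sg_cons_mem (B : Finset ℕ) (p : ℕ) (l : List ℕ) (hp : p ∈ B) :
    sg B (p :: l) = 1 / (p : ℝ) + sg B l := by
  unfold sg
  rw [List.map_cons, List.sum_cons, if_pos hp]

theorem sg_cons_not_mem (B : Finset ℕ) (p : ℕ) (l : List ℕ) (hp : p ∉ B) :
    sg B (p :: l) = sg B l := by
  unfold sg
  rw [List.map_cons, List.sum_cons, if_neg hp, zero_add]

theorem main (T V B : Finset ℕ) (H w : ℕ) (h : Reg T V B H w) : ∀ l : List ℕ, (∀ p ∈ l, 0 < p) →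
    ∀ (K : Finset ℕ) (v : ℕ), v ∈ V →
      (1 - Real.exp (((V \ insert v K).card : ℝ) / w - sg B l)) * A1 T V B l (insert v K) ≤
        A1 T V B l K := by
  intro l
  induction l with
  | nil =>
    intro _ K v _
    have h1 : 0 ≤ A1 T V B [] (insert v K) := A1_nonneg T V B [] _
    have h2 : 0 ≤ A1 T V B [] K := A1_nonneg T V B [] _
    have h3 : 1 - Real.exp (((V \ insert v K).card : ℝ) / w - sg B []) ≤ 0 := by
      have : (0 : ℝ) ≤ ((V \ insert v K).card : ℝ) / w - sg B [] := by
        unfold sg
        simp only [List.map_nil, List.sum_nil, sub_zero]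
        positivity
      have := Real.one_le_exp this
      linarith
    nlinarith [mul_nonneg_of_nonpos_of_nonpos h3 (neg_nonpos.mpr h1)]
  | cons p l ih =>
    intro hl K v hv
    have hp0 : 0 < p := hl p (by simp)
    have hl' : ∀ q ∈ l, 0 < q := fun q hq => hl q (by simp [hq])
    have ih' := ih hl'
    by_cases hvK : v ∈ K
    · rw [Finset.insert_eq_of_mem hvK]
      have h1 : 0 ≤ A1 T V B (p :: l) K := A1_nonneg T V B _ _
      have h2 : 0 < Real.exp (((V \ K).card : ℝ) / w - sg B (p :: l)) := Real.exp_pos _
      nlinarith
    by_cases hpB : p ∈ B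
    · -- the interesting case
      have hwp : w ≤ p := h.B_ge p hpB
      have hw8 : 8 * (H + 1) ≤ w := h.w_ge
      have hHp : H < p := by omega
      have hw0 : (0 : ℝ) < w := by
        have : 0 < w := by omega
        exact_mod_cast this
      have hpR : (0 : ℝ) < p := by exact_mod_cast hp0
      have hmodV : ∀ u ∈ V, u % p = u := fun u hu => Nat.mod_eq_of_lt (lt_of_le_of_lt (h.V_le u hu) hHp)
      have hmodT : ∀ t ∈ T, t % p = t := fun t ht => Nat.mod_eq_of_lt (lt_of_le_of_lt (h.T_le t ht) hHp)
      have hvp : v < p := lt_of_le_of_lt (h.V_le v hv) hHp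
      set K₁ := insert v K with hK₁
      set m := (V \ K₁).card with hm
      set φ : ℝ := 1 - Real.exp ((m : ℝ) / w - sg B l) with hφ
      set φ' : ℝ := 1 - Real.exp ((m : ℝ) / w - sg B (p :: l)) with hφ'
      set A : ℝ := A1 T V B l K₁ with hA
      have hA0 : 0 ≤ A := A1_nonneg T V B _ _
      have hφ1 : 0 ≤ 1 - φ := by
        rw [hφ]
        have := Real.exp_pos ((m : ℝ) / w - sg B l)
        linarith
      -- comparison of `φ'` and `φ`
      have hcmp : (1 - 1 / (p : ℝ)) * (1 - φ) ≤ 1 - φ' := by
        have e1 : 1 - φ' = Real.exp (-(1 / (p : ℝ))) * (1 - φ) := by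
          rw [hφ', hφ, sg_cons_mem B p l hpB]
          have : (m : ℝ) / w - (1 / (p : ℝ) + sg B l) = -(1 / (p : ℝ)) + ((m : ℝ) / w - sg B l) := by ring
          rw [this, Real.exp_add]
          ring
        rw [e1]
        apply mul_le_mul_of_nonneg_right _ hφ1
        have := Real.add_one_le_exp (-(1 / (p : ℝ)))
        linarith
      -- the hits
      have hhitv : hit V B p v = {v} := by
        unfold hit
        rw [if_pos hpB]
        ext u
        simp only [Finset.mem_filter, Finset.mem_singleton]
        constructor
        · rintro ⟨hu, huv⟩
          rw [hmodV u hu] at huv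
          exact huv
        · rintro rfl
          exact ⟨hv, hmodV _ hv⟩
      have hhitV : ∀ x, hit V B p x ⊆ V := by
        intro x
        unfold hit
        rw [if_pos hpB]
        exact Finset.filter_subset _ _
      have havv : av T p v := by
        intro t ht htv
        rw [hmodT t ht] at htv
        subst htv
        exact (Finset.disjoint_left.mp h.disj ht) hv
      have hterm : ∀ x ∈ range p,
          φ' * (open Classical in if av T p x then A1 T V B l (K₁ ∪ hit V B p x) else 0) +
            (if x = v then (1 - 1 / (p : ℝ)) * (1 - φ) * A else -((1 - φ) / p * A)) ≤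
          (open Classical in if av T p x then A1 T V B l (K ∪ hit V B p x) else 0) := by
        intro x hx
        have hslack : -((1 - φ) / p * A) ≤ 0 := by
          have : 0 ≤ (1 - φ) / p * A := by positivity
          linarith
        by_cases hxv : x = v
        · subst hxv
          rw [if_pos havv, if_pos havv, if_pos rfl, hhitv]
          have e1 : K₁ ∪ {x} = K₁ := by
            rw [hK₁]
            ext u
            simp only [Finset.mem_union, Finset.mem_insert, Finset.mem_singleton]
            tauto
          have e2 : K ∪ {x} = K₁ := by
            rw [hK₁]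
            ext u
            simp only [Finset.mem_union, Finset.mem_insert, Finset.mem_singleton]
            tauto
          rw [e1, e2]
          change φ' * A + (1 - 1 / (p : ℝ)) * (1 - φ) * A ≤ A
          nlinarith [mul_le_mul_of_nonneg_right hcmp hA0]
        · rw [if_neg hxv]
          by_cases hav : av T p x
          · rw [if_pos hav, if_pos hav]
            have hins : insert v (K ∪ hit V B p x) = K₁ ∪ hit V B p x := by
              rw [hK₁, Finset.insert_union]
            have hi := ih' (K ∪ hit V B p x) v hv
            rw [hins] at hi
            have hnn : 0 ≤ A1 T V B l (K₁ ∪ hit V B p x) := A1_nonneg T V B _ _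
            by_cases hsub : hit V B p x ⊆ K₁
            · have e1 : K₁ ∪ hit V B p x = K₁ := Finset.union_eq_left.mpr hsub
              rw [e1] at hi ⊢
              change φ * A ≤ _ at hi
              change φ' * A + -((1 - φ) / p * A) ≤ _
              have h3 : φ' - (1 - φ) / p ≤ φ := by
                have : (1 - 1 / (p : ℝ)) * (1 - φ) = (1 - φ) - (1 - φ) / p := by ring
                linarith
              nlinarith [mul_le_mul_of_nonneg_right h3 hA0]
            · have hcard : (V \ (K₁ ∪ hit V B p x)).card + 1 ≤ m := by
                obtain ⟨u, hu1, hu2⟩ := Finset.not_subset.mp hsub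
                have hlt : (V \ (K₁ ∪ hit V B p x)).card < (V \ K₁).card := by
                  apply Finset.card_lt_card
                  rw [Finset.ssubset_iff_of_subset]
                  · refine ⟨u, ?_, ?_⟩
                    · rw [Finset.mem_sdiff]
                      exact ⟨hhitV x hu1, hu2⟩
                    · rw [Finset.mem_sdiff, Finset.mem_union]
                      tauto
                  · intro y hy
                    rw [Finset.mem_sdiff, Finset.mem_union] at hy
                    rw [Finset.mem_sdiff]
                    tauto
                exact hlt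
              have hle : φ' ≤ 1 - Real.exp (((V \ (K₁ ∪ hit V B p x)).card : ℝ) / w - sg B l) := by
                rw [hφ', sg_cons_mem B p l hpB]
                have h4 : Real.exp (((V \ (K₁ ∪ hit V B p x)).card : ℝ) / w - sg B l) ≤
                    Real.exp ((m : ℝ) / w - (1 / (p : ℝ) + sg B l)) := by
                  apply Real.exp_le_exp.mpr
                  have h5 : (((V \ (K₁ ∪ hit V B p x)).card : ℝ) + 1) / w ≤ (m : ℝ) / w := by
                    apply div_le_div_of_nonneg_right _ hw0.le
                    exact_mod_cast hcard
                  have h6 : 1 / (p : ℝ) ≤ 1 / w := by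
                    apply one_div_le_one_div_of_le hw0
                    exact_mod_cast hwp
                  rw [add_div] at h5
                  linarith
                linarith
              nlinarith [mul_le_mul_of_nonneg_right hle hnn]
          · rw [if_neg hav, if_neg hav]
            linarith
      have hsum := Finset.sum_le_sum hterm
      rw [Finset.sum_add_distrib, ← Finset.mul_sum] at hsum
      have hd : ∑ x ∈ range p, (if x = v then (1 - 1 / (p : ℝ)) * (1 - φ) * A else -((1 - φ) / p * A)) = 0 := by
        have hvr : v ∈ range p := Finset.mem_range.mpr hvp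
        rw [← Finset.add_sum_erase _ _ hvr, if_pos rfl]
        have : ∑ x ∈ (range p).erase v, (if x = v then (1 - 1 / (p : ℝ)) * (1 - φ) * A else -((1 - φ) / p * A)) =
            ∑ x ∈ (range p).erase v, -((1 - φ) / p * A) := by
          apply Finset.sum_congr rfl
          intro x hx
          rw [if_neg (Finset.ne_of_mem_erase hx)]
        rw [this, Finset.sum_const, Finset.card_erase_of_mem hvr, Finset.card_range, nsmul_eq_mul,
          Nat.cast_sub hp0]
        field_simp
        push_cast
        ring
      rw [hd, add_zero] at hsum
      have hp1 : 0 ≤ 1 / (p : ℝ) := by positivity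
      have := mul_le_mul_of_nonneg_left hsum hp1
      show φ' * A1 T V B (p :: l) K₁ ≤ A1 T V B (p :: l) K
      rw [A1, A1]
      calc φ' * (1 / (p : ℝ) * ∑ x ∈ range p, (open Classical in if av T p x then A1 T V B l (K₁ ∪ hit V B p x) else 0)) =
          1 / (p : ℝ) * (φ' * ∑ x ∈ range p, (open Classical in if av T p x then A1 T V B l (K₁ ∪ hit V B p x) else 0)) := by ring
        _ ≤ _ := this
    · -- `p` is not in `B`
      have hh : ∀ x, hit V B p x = ∅ := fun x => by
        unfold hit
        rw [if_neg hpB]
      rw [sg_cons_not_mem B p l hpB]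
      have hi := ih' K v hv
      set φ : ℝ := 1 - Real.exp (((V \ insert v K).card : ℝ) / w - sg B l) with hφ
      rw [A1, A1]
      have hp1 : 0 ≤ 1 / (p : ℝ) := by positivity
      calc φ * (1 / (p : ℝ) * ∑ x ∈ range p,
            (open Classical in if av T p x then A1 T V B l (insert v K ∪ hit V B p x) else 0)) =
          1 / (p : ℝ) * ∑ x ∈ range p,
            φ * (open Classical in if av T p x then A1 T V B l (insert v K ∪ hit V B p x) else 0) := by
            rw [← Finset.mul_sum]; ring
        _ ≤ _ := by
          apply mul_le_mul_of_nonneg_left _ hp1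
          apply Finset.sum_le_sum
          intro x _
          rw [hh x, Finset.union_empty, Finset.union_empty]
          split_ifs
          · exact hi
          · rw [mul_zero]

theorem t_INS1 : S_INS1 := by
  intro T V B H w h l hl K v hv
  have h1 := main T V B H w h l hl K v hv
  have hA := A1_nonneg T V B l (insert v K)
  have hw0 : (0 : ℝ) < w := by
    have := h.w_ge
    have : 0 < w := by omega
    exact_mod_cast this
  have hcard : ((V \ insert v K).card : ℝ) ≤ V.card := by
    exact_mod_cast Finset.card_le_card Finset.sdiff_subset
  have h2 : Real.exp (((V \ insert v K).card : ℝ) / w - sg B l) ≤ Real.exp ((V.card : ℝ) / w - sg B l) := by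
    apply Real.exp_le_exp.mpr
    have := div_le_div_of_nonneg_right hcard hw0.le
    linarith
  refine le_trans (mul_le_mul_of_nonneg_right ?_ hA) h1
  change 1 - Real.exp ((V.card : ℝ) / w - sg B l) ≤ _
  linarith

end Pool.Agent.V5helper65.LR

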